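import Pool.Agent.W933.Seth.Defs

set_option autoImplicit false

/-!
A DNNF which implies a function without large rectangles has few models per gate.
-/

namespace Pool.Agent.W933.Seth

open Finset

variable {n s w : ℕ}

/-- pointwise disjunction -/
def jn (x y : Fin n → Bool) : Fin n → Bool := fun i => x i || y i

/-- restriction to `X` -/
def rs (X : Finset (Fin n)) (x : Fin n → Bool) : Fin n → Bool := fun i => if i ∈ X then x i else false

/-- assignments supported on `X` -/
def sup (X : Finset (Fin n)) : Finset (Fin n → Bool) := univ.filter fun x => ∀ i, i ∉ X → x i = false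

theorem mem_sup {X : Finset (Fin n)} {x : Fin n → Bool} : x ∈ sup X ↔ ∀ i, i ∉ X → x i = false := by
  simp [sup]

theorem rs_mem_sup (X : Finset (Fin n)) (x : Fin n → Bool) : rs X x ∈ sup X := by
  rw [mem_sup]; intro i hi; simp [rs, hi]

theorem rs_of_mem {X : Finset (Fin n)} {x : Fin n → Bool} (h : x ∈ sup X) : rs X x = x := by
  rw [mem_sup] at h
  funext i
  by_cases hi : i ∈ X
  · simp [rs, hi]
  · simp [rs, hi, h i hi]

theorem card_sup (X : Finset (Fin n)) : (sup X).card = 2 ^ X.card := by
  have : (sup X) = (X.powerset).image (fun Y => fun i => decide (i ∈ Y)) := by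
    ext x
    simp only [mem_sup, Finset.mem_image, Finset.mem_powerset]
    constructor
    · intro h
      refine ⟨univ.filter fun i => x i = true, ?_, ?_⟩
      · intro i hi
        by_contra hX
        rw [Finset.mem_filter] at hi
        rw [h i hX] at hi
        simp at hi
      · funext i; simp
    · rintro ⟨Y, hY, rfl⟩ i hi
      simp; exact fun h => hi (hY h)
  rw [this, Finset.card_image_of_injective, Finset.card_powerset]
  intro Y Z h
  ext i
  have := congrFun h i
  simpa using this

/-- all joins -/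
def join (A B : Finset (Fin n → Bool)) : Finset (Fin n → Bool) :=
  (A ×ˢ B).image fun p => jn p.1 p.2

theorem mem_join {A B : Finset (Fin n → Bool)} {x : Fin n → Bool} :
    x ∈ join A B ↔ ∃ a ∈ A, ∃ b ∈ B, jn a b = x := by
  simp [join, and_assoc]

theorem card_join {A B : Finset (Fin n → Bool)} {X Y : Finset (Fin n)} (hd : Disjoint X Y)
    (hA : A ⊆ sup X) (hB : B ⊆ sup Y) : (join A B).card = A.card * B.card := by
  unfold join
  rw [Finset.card_image_of_injOn, Finset.card_product]
  rintro ⟨a, b⟩ h1 ⟨a', b'⟩ h2 h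
  simp only [Finset.coe_product, Set.mem_prod, Finset.mem_coe] at h1 h2
  have ha := mem_sup.1 (hA h1.1)
  have hb := mem_sup.1 (hB h1.2)
  have ha' := mem_sup.1 (hA h2.1)
  have hb' := mem_sup.1 (hB h2.2)
  have hX : ∀ i, i ∈ X → i ∉ Y := fun i h1 h2 => (Finset.disjoint_left.1 hd) h1 h2
  simp only [Prod.mk.injEq]
  constructor
  · funext i
    have := congrFun h i
    simp only [jn] at this
    by_cases hi : i ∈ X
    · rw [hb i (hX i hi), hb' i (hX i hi)] at this; simpa using this
    · rw [ha i hi, ha' i hi]
  · funext i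
    have := congrFun h i
    simp only [jn] at this
    by_cases hi : i ∈ X
    · rw [hb i (hX i hi), hb' i (hX i hi)]
    · rw [ha i hi, ha' i hi] at this; simpa using this

theorem card_join_le (A B : Finset (Fin n → Bool)) : (join A B).card ≤ A.card * B.card := by
  unfold join
  exact Finset.card_image_le.trans (by rw [Finset.card_product])

theorem join_sup {A B : Finset (Fin n → Bool)} {X Y : Finset (Fin n)}
    (hA : A ⊆ sup X) (hB : B ⊆ sup Y) : join A B ⊆ sup (X ∪ Y) := by
  intro x hx
  obtain ⟨a, ha, b, hb, rfl⟩ := mem_join.1 hx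
  rw [mem_sup]
  intro i hi
  rw [Finset.mem_union, not_or] at hi
  simp [jn, mem_sup.1 (hA ha) i hi.1, mem_sup.1 (hB hb) i hi.2]

/-- `f` contains no rectangle with both sides larger than `K`. -/
def Free (K : ℕ) (f : (Fin n → Bool) → Prop) : Prop :=
  ∀ (X : Finset (Fin n)) (A B : Finset (Fin n → Bool)), A ⊆ sup Xᶜ → B ⊆ sup X →
    (∀ x ∈ A, ∀ y ∈ B, f (jn x y)) → A.card ≤ K ∨ B.card ≤ K

theorem jn_assoc (x y z : Fin n → Bool) : jn (jn x y) z = jn x (jn y z) := by
  funext i; simp [jn, Bool.or_assoc]

theorem jn_comm (x y : Fin n → Bool) : jn x y = jn y x := by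
  funext i; simp [jn, Bool.or_comm]

/-- A rectangle with a free part. -/
theorem wire {K : ℕ} {f : (Fin n → Bool) → Prop} (hf : Free K f) {T D : Finset (Fin n)}
    (hTD : Disjoint T D) {A B : Finset (Fin n → Bool)} (hA : A ⊆ sup (T ∪ D)ᶜ) (hB : B ⊆ sup T)
    (h : ∀ x ∈ A, ∀ y ∈ B, ∀ z ∈ sup D, f (jn x (jn y z))) (hAK : A.card ≤ K) (hBK : B.card ≤ K) :
    A.card * (B.card * 2 ^ D.card) ≤ 2 * K ^ 2 := by
  by_cases h1 : B.card * 2 ^ D.card ≤ K
  · calc A.card * (B.card * 2 ^ D.card) ≤ K * K := Nat.mul_le_mul hAK h1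
      _ ≤ 2 * K ^ 2 := by nlinarith
  · push Not at h1
    have hex : ∃ j, K < B.card * 2 ^ j := ⟨_, h1⟩
    classical
    obtain ⟨j, hj, hmin⟩ : ∃ j, K < B.card * 2 ^ j ∧ ∀ i < j, ¬ K < B.card * 2 ^ i :=
      ⟨Nat.find hex, Nat.find_spec hex, fun i hi => Nat.find_min hex hi⟩
    have hjD : j ≤ D.card := by
      by_contra hc
      push Not at hc
      exact hmin _ hc h1
    have hj0 : j ≠ 0 := by
      rintro rfl
      simp at hj; omega
    obtain ⟨i, rfl⟩ := Nat.exists_eq_succ_of_ne_zero hj0
    have hi := hmin i (Nat.lt_succ_self i)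
    push Not at hi
    obtain ⟨D', hD', hcard⟩ := Finset.exists_subset_card_eq hjD
    have hdis : Disjoint T D' := hTD.mono_right hD'
    have hB2 : join B (sup D') ⊆ sup (T ∪ D') := join_sup hB (fun _ h => h)
    have hA2' : join A (sup (D \ D')) ⊆ sup ((T ∪ D)ᶜ ∪ (D \ D')) := join_sup hA (fun _ h => h)
    have hset : (T ∪ D)ᶜ ∪ (D \ D') = (T ∪ D')ᶜ := by
      ext a
      simp only [Finset.mem_union, Finset.mem_compl, Finset.mem_sdiff, not_or]
      constructor
      · rintro (⟨h1, h2⟩ | ⟨h1, h2⟩)
        · exact ⟨h1, fun h => h2 (hD' h)⟩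
        · exact ⟨fun h => (Finset.disjoint_left.1 hTD) h h1, h2⟩
      · rintro ⟨h1, h2⟩
        by_cases hD : a ∈ D
        · exact Or.inr ⟨hD, h2⟩
        · exact Or.inl ⟨h1, hD⟩
    have hA2 : join A (sup (D \ D')) ⊆ sup (T ∪ D')ᶜ := hset ▸ hA2'
    have hcA : (join A (sup (D \ D'))).card = A.card * 2 ^ (D.card - D'.card) := by
      rw [card_join (X := (T ∪ D)ᶜ) (Y := D \ D') _ hA (fun _ h => h), card_sup,
        Finset.card_sdiff_of_subset hD']
      rw [Finset.disjoint_left]
      intro a ha hb
      rw [Finset.mem_compl, Finset.mem_union, not_or] at ha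
      exact ha.2 (Finset.mem_sdiff.1 hb).1
    have hcB : (join B (sup D')).card = B.card * 2 ^ D'.card := by
      rw [card_join hdis hB (fun _ h => h), card_sup]
    have hr := hf (T ∪ D') (join A (sup (D \ D'))) (join B (sup D')) hA2 hB2 (by
      intro x hx y hy
      obtain ⟨a, ha, z, hz, rfl⟩ := mem_join.1 hx
      obtain ⟨b, hb, z', hz', rfl⟩ := mem_join.1 hy
      have hz2 : jn z z' ∈ sup D := by
        rw [mem_sup]
        intro i hi
        have h1 := mem_sup.1 hz i (fun h => hi (Finset.mem_sdiff.1 h).1)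
        have h2 := mem_sup.1 hz' i (fun h => hi (hD' h))
        simp [jn, h1, h2]
      have := h a ha b hb _ hz2
      have e : jn (jn a z) (jn b z') = jn a (jn b (jn z z')) := by
        rw [jn_assoc, ← jn_assoc z b z', jn_comm z b, jn_assoc]
      rw [e]; exact this)
    rw [hcA, hcB, hcard] at hr
    rcases hr with hr | hr
    · have e : A.card * (B.card * 2 ^ D.card) =
          (A.card * 2 ^ (D.card - (i + 1))) * (B.card * 2 ^ (i + 1)) := by
        have : 2 ^ D.card = 2 ^ (D.card - (i + 1)) * 2 ^ (i + 1) := by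
          rw [← pow_add]; congr 1
          have : i + 1 ≤ D.card := hjD
          omega
        rw [this]; ring
      rw [e]
      have h2 : B.card * 2 ^ (i + 1) ≤ 2 * K := by rw [pow_succ]; nlinarith
      calc _ ≤ K * (2 * K) := Nat.mul_le_mul hr h2
        _ = 2 * K ^ 2 := by ring
    · exact absurd hr (by push Not; exact hj)

variable (C : Dnnf n s w)

theorem Dnnf.dep (i : Fin s) : ∀ x y : Fin n → Bool, (∀ k ∈ C.scope i, x k = y k) →
    C.val i x = C.val i y := by
  induction' h : i.val using Nat.strong_induction_on with N ih generalizing i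
  intro x y hxy
  cases hk : C.kind i with
  | leaf => exact (C.leaf_ok i hk).2 x y hxy
  | and a b =>
    obtain ⟨ha, hb, hs, -, hv⟩ := C.and_ok i a b hk
    rw [hv x, hv y, ih a.val (by omega) a rfl x y (fun k hk => hxy k (by rw [hs]; exact Finset.mem_union_left _ hk)),
      ih b.val (by omega) b rfl x y (fun k hk => hxy k (by rw [hs]; exact Finset.mem_union_right _ hk))]
  | or a b =>
    obtain ⟨ha, hb, hs, hv⟩ := C.or_ok i a b hk
    rw [hv x, hv y, ih a.val (by omega) a rfl x y (fun k hk => hxy k (by rw [hs]; exact Finset.mem_union_left _ hk)),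
      ih b.val (by omega) b rfl x y (fun k hk => hxy k (by rw [hs]; exact Finset.mem_union_right _ hk))]

/-- the models of a gate -/
def Dnnf.B (v : Fin s) : Finset (Fin n → Bool) := (sup (C.scope v)).filter fun y => C.val v y = true

open Classical in
/-- the contexts of a gate -/
noncomputable def Dnnf.A (out v : Fin s) : Finset (Fin n → Bool) :=
  (sup (C.scope v)ᶜ).filter fun x => ∀ y ∈ C.B v, C.val out (jn x y) = true

theorem rs_split (X : Finset (Fin n)) (x : Fin n → Bool) : jn (rs Xᶜ x) (rs X x) = x := by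
  funext i
  by_cases h : i ∈ X <;> simp [jn, rs, h]

theorem Dnnf.B_mem {v : Fin s} {x : Fin n → Bool} (h : C.val v x = true) :
    rs (C.scope v) x ∈ C.B v := by
  unfold Dnnf.B
  rw [Finset.mem_filter]
  refine ⟨rs_mem_sup _ _, ?_⟩
  rw [C.dep v (rs (C.scope v) x) x (fun k hk => by simp [rs, hk]), h]

variable {C}

theorem A_le {K : ℕ} {out v : Fin s} (hf : Free K fun x => C.val out x = true)
    (h : K < (C.B v).card) : (C.A out v).card ≤ K := by
  have := hf (C.scope v) (C.A out v) (C.B v) (Finset.filter_subset _ _) (Finset.filter_subset _ _)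
    (fun x hx y hy => (Finset.mem_filter.1 hx).2 y hy)
  rcases this with h1 | h1
  · exact h1
  · omega

/-- `x` passes through a critical wire or gate -/
def Crit (C : Dnnf n s w) (K : ℕ) (out v : Fin s) (c : Bool) (x : Fin n → Bool) : Prop :=
  K < (C.B v).card ∧ rs (C.scope v)ᶜ x ∈ C.A out v ∧
    match C.kind v with
    | .leaf => False
    | .and a b => (C.B a).card ≤ K ∧ (C.B b).card ≤ K ∧ C.val v x = true
    | .or a b => (C.B (if c then a else b)).card ≤ K ∧ C.val (if c then a else b) x = true

open Classical in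
theorem card_crit {K : ℕ} (hK : 1 ≤ K) {out : Fin s} (hf : Free K fun x => C.val out x = true)
    (v : Fin s) (c : Bool) : (univ.filter fun x => Crit C K out v c x).card ≤ 2 * K ^ 3 := by
  by_cases hv : K < (C.B v).card
  swap
  · rw [Finset.filter_false_of_mem (fun x _ h => hv h.1)]; simp
  have hA := A_le hf hv
  cases hk : C.kind v with
  | leaf =>
    rw [Finset.filter_false_of_mem (fun x _ h => by unfold Crit at h; rw [hk] at h; exact h.2.2)]
    simp
  | and a b =>
    obtain ⟨-, -, hs, hd, hval⟩ := C.and_ok v a b hk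
    by_cases hab : (C.B a).card ≤ K ∧ (C.B b).card ≤ K
    swap
    · rw [Finset.filter_false_of_mem (fun x _ h => by
        unfold Crit at h; rw [hk] at h; exact hab ⟨h.2.2.1, h.2.2.2.1⟩)]
      simp
    have hsub : (univ.filter fun x => Crit C K out v c x) ⊆
        join (C.A out v) (join (C.B a) (C.B b)) := by
      intro x hx
      rw [Finset.mem_filter] at hx
      have hx2 := hx.2
      unfold Crit at hx2
      rw [hk] at hx2
      obtain ⟨-, h2, -, -, h5⟩ := hx2
      rw [hval, Bool.and_eq_true] at h5
      refine mem_join.2 ⟨_, h2, _, mem_join.2 ⟨_, C.B_mem h5.1, _, C.B_mem h5.2, rfl⟩, ?_⟩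
      funext i
      by_cases ha : i ∈ C.scope a <;> by_cases hb : i ∈ C.scope b <;>
        simp [jn, rs, ha, hb, hs]
    calc _ ≤ _ := Finset.card_le_card hsub
      _ ≤ (C.A out v).card * (join (C.B a) (C.B b)).card := card_join_le _ _
      _ ≤ K * (K * K) := Nat.mul_le_mul hA ((card_join_le _ _).trans (Nat.mul_le_mul hab.1 hab.2))
      _ ≤ 2 * K ^ 3 := by nlinarith [Nat.zero_le (K * (K * K))]
  | or a b =>
    obtain ⟨-, -, hs, hval⟩ := C.or_ok v a b hk
    set u := (if c then a else b) with hu
    have hus : C.scope u ⊆ C.scope v := by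
      rw [hs, hu]; split_ifs
      · exact Finset.subset_union_left
      · exact Finset.subset_union_right
    have huv : ∀ x, C.val u x = true → C.val v x = true := by
      intro x hx
      rw [hval, Bool.or_eq_true]
      rw [hu] at hx
      split_ifs at hx
      · exact Or.inl hx
      · exact Or.inr hx
    by_cases hab : (C.B u).card ≤ K
    swap
    · rw [Finset.filter_false_of_mem (fun x _ h => by
        unfold Crit at h; rw [hk] at h; exact hab h.2.2.1)]
      simp
    have hsub : (univ.filter fun x => Crit C K out v c x) ⊆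
        join (C.A out v) (join (C.B u) (sup (C.scope v \ C.scope u))) := by
      intro x hx
      rw [Finset.mem_filter] at hx
      have hx2 := hx.2
      unfold Crit at hx2
      rw [hk] at hx2
      obtain ⟨-, h2, -, h5⟩ := hx2
      refine mem_join.2 ⟨_, h2, _, mem_join.2 ⟨_, C.B_mem (v := u) h5, _, rs_mem_sup _ x, rfl⟩, ?_⟩
      funext i
      by_cases ha : i ∈ C.scope u
      · have := hus ha
        simp [jn, rs, ha, this]
      · by_cases hb : i ∈ C.scope v <;> simp [jn, rs, ha, hb]
    have hTD : Disjoint (C.scope u) (C.scope v \ C.scope u) := Finset.disjoint_sdiff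
    have hun : C.scope u ∪ (C.scope v \ C.scope u) = C.scope v := Finset.union_sdiff_of_subset hus
    have hw := wire hf (T := C.scope u) (D := C.scope v \ C.scope u) hTD (A := C.A out v)
      (B := C.B u) (by rw [hun]; exact Finset.filter_subset _ _) (Finset.filter_subset _ _) (by
        intro x hx y hy z hz
        refine (Finset.mem_filter.1 hx).2 _ ?_
        unfold Dnnf.B
        rw [Finset.mem_filter]
        have h1 : jn y z ∈ sup (C.scope v) := by
          rw [mem_sup]
          intro i hi
          have e1 := mem_sup.1 (Finset.mem_filter.1 hy).1 i (fun h => hi (hus h))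
          have e2 := mem_sup.1 hz i (fun h => hi (Finset.mem_sdiff.1 h).1)
          simp [jn, e1, e2]
        refine ⟨h1, huv _ ?_⟩
        rw [← (Finset.mem_filter.1 hy).2]
        refine C.dep u _ _ (fun k hk => ?_)
        have e2 := mem_sup.1 hz k (fun h => (Finset.mem_sdiff.1 h).2 hk)
        simp [jn, e2]) hA hab
    calc _ ≤ _ := Finset.card_le_card hsub
      _ ≤ (C.A out v).card * (join (C.B u) (sup (C.scope v \ C.scope u))).card := card_join_le _ _
      _ ≤ (C.A out v).card * ((C.B u).card * 2 ^ (C.scope v \ C.scope u).card) :=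
          Nat.mul_le_mul le_rfl ((card_join_le _ _).trans (by rw [card_sup]))
      _ ≤ 2 * K ^ 2 := hw
      _ ≤ 2 * K ^ 3 := Nat.mul_le_mul le_rfl (Nat.pow_le_pow_right hK (by norm_num))

theorem cover {K : ℕ} (hwK : 2 ^ w ≤ K) {out : Fin s}
    (v : Fin s) : K < (C.B v).card → ∀ x, rs (C.scope v)ᶜ x ∈ C.A out v → C.val v x = true →
      ∃ v' c, Crit C K out v' c x := by
  induction' h : v.val using Nat.strong_induction_on with N ih generalizing v
  intro hv x hxA hx
  cases hk : C.kind v with
  | leaf =>
    exfalso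
    have h1 := (C.leaf_ok v hk).1
    have h2 : (C.B v).card ≤ 2 ^ (C.scope v).card := by
      rw [← card_sup]; exact Finset.card_le_card (Finset.filter_subset _ _)
    have h3 : 2 ^ (C.scope v).card ≤ 2 ^ w := Nat.pow_le_pow_right (by norm_num) h1
    omega
  | and a b =>
    obtain ⟨ha, hb, hs, hd, hval⟩ := C.and_ok v a b hk
    by_cases hab : (C.B a).card ≤ K ∧ (C.B b).card ≤ K
    · refine ⟨v, true, hv, hxA, ?_⟩
      rw [hk]
      exact ⟨hab.1, hab.2, hx⟩
    rw [hval, Bool.and_eq_true] at hx
    -- the contexts of the two children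
    have key : ∀ p q : Fin s, C.scope v = C.scope p ∪ C.scope q →
        Disjoint (C.scope p) (C.scope q) → (∀ y, C.val v y = (C.val p y && C.val q y)) →
        C.val q x = true → rs (C.scope p)ᶜ x ∈ C.A out p := by
      intro p q hpq hdd hvv hq
      unfold Dnnf.A
      rw [Finset.mem_filter]
      refine ⟨rs_mem_sup _ _, fun y hy => ?_⟩
      have hy1 := mem_sup.1 (Finset.mem_filter.1 hy).1
      have hy2 := (Finset.mem_filter.1 hy).2
      have e : jn (rs (C.scope p)ᶜ x) y = jn (rs (C.scope v)ᶜ x) (jn (rs (C.scope q) x) y) := by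
        funext i
        by_cases h1 : i ∈ C.scope p
        · have h2 : i ∉ C.scope q := fun h => (Finset.disjoint_left.1 hdd) h1 h
          simp [jn, rs, h1, h2, hpq]
        · by_cases h2 : i ∈ C.scope q <;> simp [jn, rs, h1, h2, hpq, hy1 i h1]
      rw [e]
      refine (Finset.mem_filter.1 hxA).2 _ ?_
      unfold Dnnf.B
      rw [Finset.mem_filter, hvv, Bool.and_eq_true]
      refine ⟨?_, ?_, ?_⟩
      · rw [mem_sup]
        intro i hi
        rw [hpq, Finset.mem_union, not_or] at hi
        simp [jn, rs, hi.2, hy1 i hi.1]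
      · rw [← hy2]
        refine C.dep p _ _ (fun k hk => ?_)
        have h2 : k ∉ C.scope q := fun h => (Finset.disjoint_left.1 hdd) hk h
        simp [jn, rs, h2]
      · rw [← hq]
        refine C.dep q _ _ (fun k hk => ?_)
        have h2 : k ∉ C.scope p := fun h => (Finset.disjoint_left.1 hdd) h hk
        simp [jn, rs, hk, hy1 k h2]
    rw [not_and_or, not_le, not_le] at hab
    rcases hab with hab | hab
    · exact ih a.val (by omega) a rfl hab x (key a b hs hd hval hx.2) hx.1
    · exact ih b.val (by omega) b rfl hab x (key b a (by rw [hs, Finset.union_comm]) hd.symm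
        (fun y => by rw [hval, Bool.and_comm]) hx.1) hx.2
  | or a b =>
    obtain ⟨ha, hb, hs, hval⟩ := C.or_ok v a b hk
    have key : ∀ u : Fin s, C.scope u ⊆ C.scope v → (∀ y, C.val u y = true → C.val v y = true) →
        rs (C.scope u)ᶜ x ∈ C.A out u := by
      intro u hus huv
      unfold Dnnf.A
      rw [Finset.mem_filter]
      refine ⟨rs_mem_sup _ _, fun y hy => ?_⟩
      have hy1 := mem_sup.1 (Finset.mem_filter.1 hy).1
      have hy2 := (Finset.mem_filter.1 hy).2
      have e : jn (rs (C.scope u)ᶜ x) y =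
          jn (rs (C.scope v)ᶜ x) (jn (rs (C.scope v \ C.scope u) x) y) := by
        funext i
        by_cases h1 : i ∈ C.scope u
        · have h2 := hus h1
          simp [jn, rs, h1, h2]
        · by_cases h2 : i ∈ C.scope v <;> simp [jn, rs, h1, h2, hy1 i h1]
      rw [e]
      refine (Finset.mem_filter.1 hxA).2 _ ?_
      unfold Dnnf.B
      rw [Finset.mem_filter]
      refine ⟨?_, huv _ ?_⟩
      · rw [mem_sup]
        intro i hi
        have h1 : i ∉ C.scope u := fun h => hi (hus h)
        simp [jn, rs, hi, hy1 i h1]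
      · rw [← hy2]
        refine C.dep u _ _ (fun k hk => ?_)
        simp [jn, rs, hk]
    have hx' := hx
    rw [hval, Bool.or_eq_true] at hx
    rcases hx with hx | hx
    · by_cases hl : (C.B a).card ≤ K
      · refine ⟨v, true, hv, hxA, ?_⟩
        rw [hk]; exact ⟨hl, hx⟩
      · exact ih a.val (by omega) a rfl (by omega) x
          (key a (by rw [hs]; exact Finset.subset_union_left) (fun y hy => by rw [hval, hy]; rfl)) hx
    · by_cases hl : (C.B b).card ≤ K
      · refine ⟨v, false, hv, hxA, ?_⟩
        rw [hk]; exact ⟨hl, hx⟩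
      · exact ih b.val (by omega) b rfl (by omega) x
          (key b (by rw [hs]; exact Finset.subset_union_right) (fun y hy => by rw [hval, hy]; simp)) hx

/-- The number of models per gate. -/
theorem models_le {K : ℕ} (hwK : 2 ^ w ≤ K) (out : Fin s)
    (hf : Free K fun x => C.val out x = true) :
    models (fun x => C.val out x = true) ≤ 4 * s * K ^ 3 := by
  classical
  have hK : 1 ≤ K := (Nat.one_le_two_pow).trans hwK
  have hs : 1 ≤ s := by have := out.isLt; omega
  have e0 : models (fun x => C.val out x = true) = (univ.filter fun x => C.val out x = true).card := by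
    unfold models; congr
  rw [e0]
  by_cases hv : K < (C.B out).card
  · have hsub : (univ.filter fun x => C.val out x = true) ⊆
        (univ : Finset (Fin s × Bool)).biUnion
          (fun p => univ.filter fun x => Crit C K out p.1 p.2 x) := by
      intro x hx
      have hx2 := (Finset.mem_filter.1 hx).2
      obtain ⟨v', c, h⟩ := cover hwK out hv x (by
        unfold Dnnf.A
        rw [Finset.mem_filter]
        refine ⟨rs_mem_sup _ _, fun y hy => ?_⟩
        have hy1 := mem_sup.1 (Finset.mem_filter.1 hy).1
        rw [← (Finset.mem_filter.1 hy).2]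
        refine C.dep out _ _ (fun k hk => ?_)
        simp [jn, rs, hk]) hx2
      exact Finset.mem_biUnion.2 ⟨(v', c), Finset.mem_univ _, Finset.mem_filter.2 ⟨Finset.mem_univ _, h⟩⟩
    calc _ ≤ _ := Finset.card_le_card hsub
      _ ≤ ∑ p : Fin s × Bool, (univ.filter fun x => Crit C K out p.1 p.2 x).card :=
          Finset.card_biUnion_le
      _ ≤ ∑ p : Fin s × Bool, 2 * K ^ 3 := Finset.sum_le_sum (fun p _ => card_crit hK hf p.1 p.2)
      _ = 4 * s * K ^ 3 := by
          rw [Finset.sum_const, Finset.card_univ, Fintype.card_prod, Fintype.card_fin,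
            Fintype.card_bool, smul_eq_mul]; ring
  · push Not at hv
    have hTD : Disjoint (C.scope out) (C.scope out)ᶜ := disjoint_compl_right
    have hz : (sup (C.scope out ∪ (C.scope out)ᶜ)ᶜ).card = 1 := by
      rw [card_sup, Finset.union_compl, Finset.compl_univ]; simp
    have hw := wire hf hTD (A := sup (C.scope out ∪ (C.scope out)ᶜ)ᶜ) (B := C.B out)
      (fun _ h => h) (Finset.filter_subset _ _) (by
        intro x hx y hy z hz
        rw [Finset.union_compl, Finset.compl_univ, mem_sup] at hx
        rw [← (Finset.mem_filter.1 hy).2]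
        refine C.dep out _ _ (fun k hk => ?_)
        have h1 := hx k (by simp)
        have h2 := mem_sup.1 hz k (by simp [hk])
        simp [jn, h1, h2]) (by rw [hz]; exact hK) hv
    rw [hz, one_mul] at hw
    have hsub : (univ.filter fun x => C.val out x = true) ⊆
        join (C.B out) (sup (C.scope out)ᶜ) := by
      intro x hx
      have hx2 := (Finset.mem_filter.1 hx).2
      refine mem_join.2 ⟨_, C.B_mem hx2, _, rs_mem_sup _ x, ?_⟩
      rw [jn_comm]; exact rs_split _ _
    calc _ ≤ _ := Finset.card_le_card hsub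
      _ ≤ (C.B out).card * 2 ^ ((C.scope out)ᶜ).card := (card_join_le _ _).trans (by rw [card_sup])
      _ ≤ 2 * K ^ 2 := hw
      _ ≤ 2 * K ^ 3 := Nat.mul_le_mul le_rfl (Nat.pow_le_pow_right hK (by norm_num))
      _ ≤ 4 * s * K ^ 3 := Nat.mul_le_mul (by omega) le_rfl

theorem Free.mono {K : ℕ} {f g : (Fin n → Bool) → Prop} (hf : Free K f) (h : ∀ x, g x → f x) :
    Free K g := fun X A B hA hB hr => hf X A B hA hB (fun x hx y hy => h _ (hr x hx y hy))

end Pool.Agent.W933.Seth
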