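import Pool.Agent.W933.Seth.Random

set_option autoImplicit false

/-!
Choice of the parameters.
-/

namespace Pool.Agent.W933.Seth

open Finset

variable {n : ℕ}

theorem ball_bound (z : Fin n → Bool) (d : ℕ) {y : ℝ} (h0 : 0 < y) (h1 : y ≤ 1) :
    ((univ.filter fun x : Fin n → Bool => hammingDist x z < d).card : ℝ) * y ^ d ≤ (1 + y) ^ n := by
  have e1 : ∀ x : Fin n → Bool, y ^ (hammingDist x z) = ∏ i, if x i ≠ z i then y else 1 := by
    intro x
    rw [Finset.prod_ite, Finset.prod_const_one, mul_one, Finset.prod_const]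
    rfl
  have e2 : ∑ x : Fin n → Bool, y ^ (hammingDist x z) = (1 + y) ^ n := by
    rw [Finset.sum_congr rfl (fun x _ => e1 x)]
    have := Finset.prod_univ_sum (fun _ : Fin n => (univ : Finset Bool))
      (fun i b => if b ≠ z i then y else (1:ℝ))
    rw [Fintype.piFinset_univ] at this
    rw [← this]
    have e3 : ∀ i, (∑ b : Bool, if b ≠ z i then y else (1:ℝ)) = 1 + y := by
      intro i
      cases z i <;> simp [add_comm]
    rw [Finset.prod_congr rfl (fun i _ => e3 i), Finset.prod_const, Finset.card_univ,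
      Fintype.card_fin]
  rw [← e2, ← nsmul_eq_mul, ← Finset.sum_const]
  refine le_trans (Finset.sum_le_sum (g := fun x => y ^ (hammingDist x z)) ?_)
    (Finset.sum_le_sum_of_subset_of_nonneg (Finset.filter_subset _ _) (fun _ _ _ => by positivity))
  intro x hx
  exact pow_le_pow_of_le_one h0.le h1 (Finset.mem_filter.1 hx).2.le

theorem Free.mono' {K K' : ℕ} {f : (Fin n → Bool) → Prop} (hf : Free K f) (h : K ≤ K') :
    Free K' f := fun X A B hA hB hr => (hf X A B hA hB hr).imp (fun h' => h'.trans h)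
      (fun h' => h'.trans h)

theorem main (L : ℕ) (hL : 1 ≤ L) : ∃ c n₀ : ℕ, ∀ n ≥ n₀, ∃ φ : List (List (Fin n × Bool)),
    φ.length ≤ c * n ∧ (∀ C ∈ φ, C.length ≤ 5000 * L * (Nat.log 2 L + 1) ^ 2) ∧
    (2:ℝ) ^ ((n:ℝ) - n / L) ≤ models (Sat φ) ∧
    ∀ (s w : ℕ) (D : Dnnf n s w) (out : Fin s), 6 * L * w ≤ n →
      (∀ x, D.val out x = true → Sat φ x) →
        (models (fun x => D.val out x = true) : ℝ) ≤ s * 2 ^ ((n:ℝ) / L) := by
  obtain ⟨l, hl⟩ : ∃ l, l = Nat.log 2 L := ⟨_, rfl⟩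
  rw [← hl]
  obtain ⟨P, hP⟩ : ∃ P, P = l + 6 := ⟨_, rfl⟩
  obtain ⟨t, ht⟩ : ∃ t, t = 2 * l + 13 := ⟨_, rfl⟩
  obtain ⟨k, hk⟩ : ∃ k, k = P * 2 ^ P * t := ⟨_, rfl⟩
  obtain ⟨Q, hQ⟩ : ∃ Q, Q = 4 * L := ⟨_, rfl⟩
  have hLlt : L < 2 ^ (l + 1) := by rw [hl]; exact Nat.lt_pow_succ_log_self (by norm_num) L
  have hLge : 2 ^ l ≤ L := by rw [hl]; exact Nat.pow_log_le_self 2 (by omega)
  have hLR : (1:ℝ) ≤ L := by exact_mod_cast hL
  -- the constant in the last estimate
  obtain ⟨n₁, hn₁⟩ : ∃ n₁ : ℕ, ∀ n : ℕ, n₁ ≤ n →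
      (4:ℝ) * (8 * Q * 2 ^ P) ^ 3 ≤ 2 ^ ((n:ℝ) / (2 * L)) := by
    obtain ⟨N, hN⟩ := pow_unbounded_of_one_lt ((4:ℝ) * (8 * Q * 2 ^ P) ^ 3) (one_lt_two)
    refine ⟨N * (2 * L), fun n hn => hN.le.trans ?_⟩
    rw [← Real.rpow_natCast]
    apply Real.rpow_le_rpow_of_exponent_le one_le_two
    rw [le_div_iff₀ (by positivity)]
    exact_mod_cast hn
  refine ⟨2 ^ k, max n₁ (4 * L), fun n hn => ?_⟩
  have hn1 : n₁ ≤ n := (le_max_left _ _).trans hn
  have hn2 : 4 * L ≤ n := (le_max_right _ _).trans hn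
  have hn0 : (0:ℝ) < n := by
    have : 0 < n := by omega
    exact_mod_cast this
  obtain ⟨d, hd⟩ : ∃ d, d = n / (P * 2 ^ P) + 1 := ⟨_, rfl⟩
  have hPpos : 0 < P * 2 ^ P := Nat.mul_pos (by omega) (by positivity)
  have hdn : n ≤ d * (P * 2 ^ P) := by
    have := Nat.lt_mul_div_succ n hPpos
    rw [hd]; nlinarith
  have hPd : (P:ℝ) * d ≤ n / 2 ^ P + P := by
    have h1 : n / (P * 2 ^ P) * (P * 2 ^ P) ≤ n := Nat.div_mul_le_self _ _
    have h2 : ((n / (P * 2 ^ P) : ℕ) : ℝ) * (P * 2 ^ P) ≤ n := by exact_mod_cast h1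
    rw [hd]; push_cast
    have h3 : (0:ℝ) < 2 ^ P := by positivity
    have : (P:ℝ) * ((n / (P * 2 ^ P) : ℕ) : ℝ) ≤ n / 2 ^ P := by
      rw [le_div_iff₀ h3]; nlinarith
    linarith
  obtain ⟨y, hy⟩ : ∃ y : ℝ, y = (1 / 2) ^ P := ⟨_, rfl⟩
  have hy0 : 0 < y := by rw [hy]; positivity
  have hy1 : y ≤ 1 := by rw [hy]; exact pow_le_one₀ (by norm_num) (by norm_num)
  obtain ⟨V, hV⟩ : ∃ V, V = ⌊(1 + y) ^ n * 2 ^ (P * d)⌋₊ := ⟨_, rfl⟩
  have hVball : ∀ z : Fin n → Bool, (univ.filter fun x => hammingDist x z < d).card ≤ V := by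
    intro z
    rw [hV]
    apply Nat.le_floor
    have h1 := ball_bound z d hy0 hy1
    have h2 : y ^ d * 2 ^ (P * d) = 1 := by
      rw [hy, ← pow_mul, ← mul_pow]; norm_num
    calc ((univ.filter fun x : Fin n → Bool => hammingDist x z < d).card : ℝ)
        = (univ.filter fun x : Fin n → Bool => hammingDist x z < d).card * (y ^ d * 2 ^ (P * d)) := by
          rw [h2, mul_one]
      _ = (univ.filter fun x : Fin n → Bool => hammingDist x z < d).card * y ^ d * 2 ^ (P * d) := by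
          ring
      _ ≤ _ := mul_le_mul_of_nonneg_right h1 (by positivity)
  have hk1 : 1 ≤ k := by rw [hk, ht]; exact Nat.one_le_iff_ne_zero.2 (by positivity)
  have ht2 : 128 * Q ^ 2 ≤ 2 ^ t := by
    have : L ^ 2 ≤ (2 ^ (l + 1)) ^ 2 := Nat.pow_le_pow_left hLlt.le 2
    calc 128 * Q ^ 2 = 2048 * L ^ 2 := by rw [hQ]; ring
      _ ≤ 2048 * (2 ^ (l + 1)) ^ 2 := Nat.mul_le_mul le_rfl this
      _ = 2 ^ t := by rw [ht, ← pow_mul, show 2048 = 2 ^ 11 by norm_num, ← pow_add]; congr 1; ring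
  have hq : 64 * Q ^ 2 ≤ 2 ^ (k + 1) := by
    have h1 : t ≤ k := by rw [hk]; exact Nat.le_mul_of_pos_left _ hPpos
    have : 2 ^ t ≤ 2 ^ (k + 1) := Nat.pow_le_pow_right (by norm_num) (by omega)
    omega
  have hcol : 2 * (((8 * Q) * (8 * Q)) * (n - d) ^ k) ≤ n ^ k := by
    have h1 : (((n - d : ℕ) : ℝ)) ≤ n * Real.exp (-(d / n)) := by
      have h2 := Real.add_one_le_exp (-((d:ℝ) / n))
      have h3 : (n:ℝ) * (1 - d / n) ≤ n * Real.exp (-(d / n)) :=
        mul_le_mul_of_nonneg_left (by linarith) hn0.le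
      have h4 : (n:ℝ) * (1 - d / n) = n - d := by field_simp
      by_cases h : d ≤ n
      · rw [Nat.cast_sub h]; linarith
      · rw [Nat.sub_eq_zero_of_le (by omega)]
        simp only [Nat.cast_zero]; positivity
    have h2 : (((n - d : ℕ) : ℝ)) ^ k ≤ n ^ k * (1 / 2) ^ t := by
      calc (((n - d : ℕ) : ℝ)) ^ k ≤ (n * Real.exp (-(d / n))) ^ k :=
            pow_le_pow_left₀ (Nat.cast_nonneg _) h1 k
        _ = n ^ k * Real.exp (-(d / n) * k) := by
            rw [mul_pow, ← Real.exp_nat_mul]; congr 2; ring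
        _ ≤ n ^ k * Real.exp (-t) := by
            gcongr
            rw [neg_mul, neg_le_neg_iff]
            have h5 : (n:ℝ) ≤ d * (P * 2 ^ P) := by exact_mod_cast hdn
            rw [div_mul_eq_mul_div, le_div_iff₀ hn0, hk]
            push_cast
            nlinarith [show (0:ℝ) ≤ t by positivity]
        _ ≤ n ^ k * (1 / 2) ^ t := by
            gcongr
            have : Real.exp (-(t:ℝ)) = (Real.exp (-1)) ^ t := by
              rw [← Real.exp_nat_mul]; congr 1; ring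
            rw [this]
            apply pow_le_pow_left₀ (Real.exp_pos _).le
            rw [Real.exp_neg, ← one_div]
            apply one_div_le_one_div_of_le (by norm_num)
            have := Real.add_one_le_exp 1; linarith
    have h3 : (128:ℝ) * Q ^ 2 * (1 / 2) ^ t ≤ 1 := by
      have : (128:ℝ) * Q ^ 2 ≤ 2 ^ t := by exact_mod_cast ht2
      calc (128:ℝ) * Q ^ 2 * (1 / 2) ^ t ≤ 2 ^ t * (1 / 2) ^ t := by gcongr
        _ = 1 := by rw [← mul_pow]; norm_num
    have h4 : ((2 * (((8 * Q) * (8 * Q)) * (n - d) ^ k) : ℕ) : ℝ) ≤ ((n ^ k : ℕ) : ℝ) := by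
      push_cast
      calc (2:ℝ) * (8 * Q * (8 * Q) * ((n - d : ℕ) : ℝ) ^ k)
          = 128 * Q ^ 2 * ((n - d : ℕ) : ℝ) ^ k := by ring
        _ ≤ 128 * Q ^ 2 * (n ^ k * (1 / 2) ^ t) := by gcongr
        _ = n ^ k * (128 * Q ^ 2 * (1 / 2) ^ t) := by ring
        _ ≤ n ^ k * 1 := by gcongr
        _ = n ^ k := mul_one _
    exact_mod_cast h4
  obtain ⟨ω, hfree, hmod⟩ := exists_form (n := n) (Q := Q) (k := k) (d := d) (V := V) (by omega)
    (by omega) (by rw [hd]; exact Nat.le_add_left _ _) hk1 hq hVball hcol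
  refine ⟨form ω, ?_, ?_, ?_, ?_⟩
  · unfold form
    rw [List.length_ofFn]
    exact Nat.mul_le_mul le_rfl (Nat.div_le_self _ _)
  · intro C hC
    obtain ⟨j, rfl⟩ := List.mem_ofFn.1 hC
    rw [List.length_ofFn, hk, hP, ht, pow_add]
    have h1 : l + 6 ≤ 6 * (l + 1) := by omega
    have h2 : 2 * l + 13 ≤ 13 * (l + 1) := by omega
    calc (l + 6) * (2 ^ l * 2 ^ 6) * (2 * l + 13) ≤ 6 * (l + 1) * (L * 2 ^ 6) * (13 * (l + 1)) := by
          gcongr
      _ = 4992 * L * (l + 1) ^ 2 := by ring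
      _ ≤ 5000 * L * (l + 1) ^ 2 := by gcongr; norm_num
  · have hm : (2:ℝ) ^ n ≤ 2 * 4 ^ (n / Q) * models (Sat (form ω)) := by exact_mod_cast hmod
    obtain ⟨M, hM⟩ : ∃ M : ℕ, M = models (Sat (form ω)) := ⟨_, rfl⟩
    rw [← hM] at hm ⊢
    obtain ⟨g, hg⟩ : ∃ g, g = n / Q := ⟨_, rfl⟩
    rw [← hg] at hm
    have hgR : (g:ℝ) * (4 * L) ≤ n := by
      have : g * Q ≤ n := by rw [hg]; exact Nat.div_mul_le_self _ _
      rw [hQ] at this; exact_mod_cast this
    have h1 : (2:ℝ) * 4 ^ g ≤ 2 ^ ((n:ℝ) / L) := by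
      have e : (2:ℝ) * 4 ^ g = 2 ^ ((1:ℝ) + 2 * g) := by
        rw [Real.rpow_add (by norm_num), Real.rpow_one, Real.rpow_mul (by norm_num)]
        norm_num
      rw [e]
      apply Real.rpow_le_rpow_of_exponent_le one_le_two
      rw [le_div_iff₀ (by positivity)]
      have : (4:ℝ) * L ≤ n := by exact_mod_cast hn2
      nlinarith
    have h2 : (2:ℝ) ^ ((n:ℝ) - n / L) * 2 ^ ((n:ℝ) / L) = 2 ^ n := by
      rw [← Real.rpow_add (by norm_num), ← Real.rpow_natCast]; congr 1; ring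
    have h3 : (0:ℝ) < 2 ^ ((n:ℝ) / L) := by positivity
    have h4 : (2:ℝ) ^ ((n:ℝ) - n / L) * 2 ^ ((n:ℝ) / L) ≤ M * 2 ^ ((n:ℝ) / L) := by
      rw [h2]
      refine hm.trans ?_
      rw [mul_comm (M : ℝ)]
      exact mul_le_mul_of_nonneg_right h1 (Nat.cast_nonneg _)
    exact le_of_mul_le_mul_right h4 h3
  · intro s w D out hw himp
    obtain ⟨K, hK⟩ : ∃ K, K = max (8 * Q * V) (2 ^ w) := ⟨_, rfl⟩
    have hfr : Free K (fun x => D.val out x = true) :=
      (hfree.mono' (by rw [hK]; exact le_max_left _ _)).mono himp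
    have hle := models_le (C := D) (by rw [hK]; exact le_max_right _ _) out hfr
    have hKR : (4:ℝ) * (K:ℝ) ^ 3 ≤ 2 ^ ((n:ℝ) / L) := by
      have hsplit : (2:ℝ) ^ ((n:ℝ) / L) = 2 ^ ((n:ℝ) / (2 * L)) * 2 ^ ((n:ℝ) / (2 * L)) := by
        rw [← Real.rpow_add (by norm_num)]; congr 1; field_simp; ring
      rcases le_total (2 ^ w) (8 * Q * V) with h | h
      · have hKe : K = 8 * Q * V := hK.trans (max_eq_left h)
        have hVR : (V:ℝ) ≤ 2 ^ P * 2 ^ ((n:ℝ) * 3 / 2 ^ P) := by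
          rw [hV]
          refine (Nat.floor_le (by positivity)).trans ?_
          have h1 : (1 + y) ^ n ≤ 2 ^ ((n:ℝ) * 2 / 2 ^ P) := by
            have h2 : 1 + y ≤ Real.exp y := by have := Real.add_one_le_exp y; linarith
            calc (1 + y) ^ n ≤ (Real.exp y) ^ n := pow_le_pow_left₀ (by positivity) h2 n
              _ = Real.exp 1 ^ ((n:ℝ) * y) := by
                  rw [← Real.exp_nat_mul, ← Real.exp_mul, one_mul]
              _ ≤ (4:ℝ) ^ ((n:ℝ) * y) := by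
                  apply Real.rpow_le_rpow (Real.exp_pos _).le _ (by positivity)
                  have := Real.exp_one_lt_d9; linarith
              _ = 2 ^ ((n:ℝ) * 2 / 2 ^ P) := by
                  rw [show (4:ℝ) = 2 ^ (2:ℝ) by norm_num, ← Real.rpow_mul (by norm_num)]
                  congr 1
                  rw [hy, one_div, inv_pow]; field_simp
          have h3 : (2:ℝ) ^ (P * d) ≤ 2 ^ P * 2 ^ ((n:ℝ) / 2 ^ P) := by
            calc (2:ℝ) ^ (P * d) = 2 ^ ((P:ℝ) * d) := by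
                  rw [← Real.rpow_natCast]; push_cast; ring_nf
              _ ≤ 2 ^ ((n:ℝ) / 2 ^ P + P) := Real.rpow_le_rpow_of_exponent_le one_le_two hPd
              _ = 2 ^ P * 2 ^ ((n:ℝ) / 2 ^ P) := by
                  rw [Real.rpow_add (by norm_num), Real.rpow_natCast, mul_comm]
          calc (1 + y) ^ n * 2 ^ (P * d) ≤ 2 ^ ((n:ℝ) * 2 / 2 ^ P) * (2 ^ P * 2 ^ ((n:ℝ) / 2 ^ P)) := by
                gcongr
            _ = 2 ^ P * (2 ^ ((n:ℝ) * 2 / 2 ^ P) * 2 ^ ((n:ℝ) / 2 ^ P)) := by ring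
            _ = _ := by
                rw [← Real.rpow_add (by norm_num)]; congr 2; ring
        have hV3 : (V:ℝ) ^ 3 ≤ (2 ^ P) ^ 3 * 2 ^ ((n:ℝ) / (2 * L)) := by
          calc (V:ℝ) ^ 3 ≤ (2 ^ P * 2 ^ ((n:ℝ) * 3 / 2 ^ P)) ^ 3 :=
                pow_le_pow_left₀ (Nat.cast_nonneg _) hVR 3
            _ = (2 ^ P) ^ 3 * 2 ^ ((n:ℝ) * 3 / 2 ^ P * 3) := by
                rw [mul_pow, ← Real.rpow_natCast (2 ^ ((n:ℝ) * 3 / 2 ^ P)), ← Real.rpow_mul (by norm_num)]
                norm_num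
            _ ≤ _ := by
                gcongr
                · norm_num
                · have h18 : (18:ℝ) * L ≤ 2 ^ P := by
                    have h1 : 18 * L ≤ 2 ^ P := by
                      calc 18 * L ≤ 18 * 2 ^ (l + 1) := Nat.mul_le_mul le_rfl hLlt.le
                        _ = 36 * 2 ^ l := by ring
                        _ ≤ 64 * 2 ^ l := Nat.mul_le_mul (by norm_num) le_rfl
                        _ = 2 ^ P := by rw [hP]; ring
                    exact_mod_cast h1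
                  rw [div_mul_eq_mul_div, div_le_div_iff₀ (by positivity) (by positivity)]
                  nlinarith
        rw [hKe, hsplit]
        push_cast
        calc (4:ℝ) * (8 * (Q:ℝ) * (V:ℝ)) ^ 3 = 4 * (8 * (Q:ℝ)) ^ 3 * (V:ℝ) ^ 3 := by ring
          _ ≤ 4 * (8 * (Q:ℝ)) ^ 3 * ((2 ^ P) ^ 3 * 2 ^ ((n:ℝ) / (2 * L))) := by gcongr
          _ = (4 * (8 * (Q:ℝ) * 2 ^ P) ^ 3) * 2 ^ ((n:ℝ) / (2 * L)) := by ring
          _ ≤ _ := by
              have := hn₁ n hn1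
              gcongr
      · have hKe : K = 2 ^ w := hK.trans (max_eq_right h)
        rw [hKe]
        push_cast
        have e : (4:ℝ) * (2 ^ w) ^ 3 = 2 ^ ((2:ℝ) + 3 * w) := by
          rw [Real.rpow_add (by norm_num), ← pow_mul, mul_comm w 3,
            show (3:ℝ) * w = ((3 * w : ℕ) : ℝ) by push_cast; ring, Real.rpow_natCast]
          norm_num
        rw [e]
        apply Real.rpow_le_rpow_of_exponent_le one_le_two
        rw [le_div_iff₀ (by positivity)]
        have h1 : (6:ℝ) * L * w ≤ n := by exact_mod_cast hw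
        have h2 : (4:ℝ) * L ≤ n := by exact_mod_cast hn2
        linarith
    calc (models (fun x => D.val out x = true) : ℝ) ≤ 4 * s * (K:ℝ) ^ 3 := by exact_mod_cast hle
      _ = s * (4 * (K:ℝ) ^ 3) := by ring
      _ ≤ s * 2 ^ ((n:ℝ) / L) := by gcongr

end Pool.Agent.W933.Seth
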