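import Pool.Agent.W933.Seth.Gashkov

set_option autoImplicit false

/-!
A random CNF of constant width has many models and no large rectangles.
-/

namespace Pool.Agent.W933.Seth

open Finset

variable {n k m : ℕ}

/-- clauses: `(t, c)` is violated by `x` if `x ∘ t = c` -/
abbrev Cl (n k : ℕ) : Type := (Fin k → Fin n) × (Fin k → Bool)

/-- the clause is violated -/
def viol (p : Cl n k) (x : Fin n → Bool) : Prop := ∀ i, x (p.1 i) = p.2 i

instance (p : Cl n k) (x : Fin n → Bool) : Decidable (viol p x) := by unfold viol; infer_instance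

/-- the CNF of a sequence of clauses -/
def form (ω : Fin m → Cl n k) : List (List (Fin n × Bool)) :=
  List.ofFn fun j => List.ofFn fun i => ((ω j).1 i, !(ω j).2 i)

theorem sat_form (ω : Fin m → Cl n k) (x : Fin n → Bool) :
    Sat (form ω) x ↔ ∀ j, ¬ viol (ω j) x := by
  unfold Sat form viol
  constructor
  · intro h j hv
    obtain ⟨l, hl, he⟩ := h _ (List.mem_ofFn.2 ⟨j, rfl⟩)
    obtain ⟨i, rfl⟩ := List.mem_ofFn.1 hl
    simp only at he
    rw [hv i] at he
    simp at he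
  · intro h C hC
    obtain ⟨j, rfl⟩ := List.mem_ofFn.1 hC
    have := h j
    push Not at this
    obtain ⟨i, hi⟩ := this
    refine ⟨_, List.mem_ofFn.2 ⟨i, rfl⟩, ?_⟩
    simp only
    cases h1 : x ((ω j).1 i) <;> cases h2 : (ω j).2 i <;> simp_all

theorem card_le_image_add_pairs {ι β : Type*} [Fintype ι] [DecidableEq ι] [DecidableEq β]
    (g : ι → β) : Fintype.card ι ≤ (univ.image g).card +
      (univ.filter fun p : ι × ι => p.1 ≠ p.2 ∧ g p.1 = g p.2).card := by
  set U : Finset ι := univ.filter fun p => ∀ p', p' ≠ p → g p' ≠ g p with hU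
  have h1 : U.card ≤ (univ.image g).card := by
    have : (U.image g).card = U.card := by
      apply Finset.card_image_of_injOn
      intro p hp p' hp' h
      by_contra hne
      exact (Finset.mem_filter.1 hp').2 p hne h
    rw [← this]
    exact Finset.card_le_card (Finset.image_subset_image (Finset.subset_univ _))
  have h2 : Uᶜ.card ≤ (univ.filter fun p : ι × ι => p.1 ≠ p.2 ∧ g p.1 = g p.2).card := by
    have : Uᶜ ⊆ (univ.filter fun p : ι × ι => p.1 ≠ p.2 ∧ g p.1 = g p.2).image Prod.fst := by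
      intro p hp
      rw [Finset.mem_compl, hU, Finset.mem_filter] at hp
      push Not at hp
      obtain ⟨p', hne, he⟩ := hp (Finset.mem_univ _)
      exact Finset.mem_image.2 ⟨(p, p'), Finset.mem_filter.2 ⟨Finset.mem_univ _, hne.symm, he.symm⟩, rfl⟩
    exact (Finset.card_le_card this).trans Finset.card_image_le
  have h3 := Finset.card_add_card_compl U
  omega

theorem card_agree (x y : Fin n → Bool) :
    (univ.filter fun t : Fin k → Fin n => ∀ i, x (t i) = y (t i)).card = (n - hammingDist x y) ^ k := by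
  have h1 : (univ.filter fun t : Fin k → Fin n => ∀ i, x (t i) = y (t i)) =
      Fintype.piFinset fun _ => univ.filter fun a => x a = y a := by
    ext t; simp [Fintype.mem_piFinset]
  rw [h1, Fintype.card_piFinset_const]
  congr 1
  have h2 := Finset.card_filter_add_card_filter_not (s := (univ : Finset (Fin n))) (fun a => x a = y a)
  have h3 : hammingDist x y = (univ.filter fun a => ¬ x a = y a).card := rfl
  rw [Finset.card_univ, Fintype.card_fin] at h2
  omega

theorem card_good {ι : Type*} [Fintype ι] [DecidableEq ι] {d : ℕ} (z : ι → Fin n → Bool)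
    (hz : ∀ p p', p ≠ p' → d ≤ hammingDist (z p) (z p'))
    (hcol : 2 * (Fintype.card ι * (n - d) ^ k) ≤ n ^ k) :
    2 * (univ.filter fun c : Cl n k => ∀ p, ¬ viol c (z p)).card + Fintype.card ι * n ^ k ≤
      2 * (n ^ k * 2 ^ k) := by
  have h1 := Finset.card_filter_add_card_filter_not (s := (univ : Finset (Cl n k)))
    (fun c => ∀ p, ¬ viol c (z p))
  have hT : (univ : Finset (Cl n k)).card = n ^ k * 2 ^ k := by
    rw [Finset.card_univ]; simp
  rw [hT] at h1
  -- the clauses which are violated somewhere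
  have h2 : (univ.filter fun c : Cl n k => ¬ ∀ p, ¬ viol c (z p)).card =
      ∑ t : Fin k → Fin n, (univ.image fun p => fun i => z p (t i)).card := by
    rw [← Finset.card_sigma]
    refine Finset.card_bij (fun c _ => ⟨c.1, c.2⟩) ?_ ?_ ?_
    · rintro ⟨t, c⟩ hc
      rw [Finset.mem_filter] at hc
      have := hc.2
      push Not at this
      obtain ⟨p, hp⟩ := this
      rw [Finset.mem_sigma]
      refine ⟨Finset.mem_univ _, Finset.mem_image.2 ⟨p, Finset.mem_univ _, ?_⟩⟩
      funext i; exact hp i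
    · rintro ⟨t, c⟩ _ ⟨t', c'⟩ _ h
      simp only [Sigma.mk.injEq, heq_eq_eq] at h
      exact Prod.ext h.1 h.2
    · rintro ⟨t, c⟩ hc
      rw [Finset.mem_sigma] at hc
      obtain ⟨p, -, hp⟩ := Finset.mem_image.1 hc.2
      refine ⟨(t, c), ?_, rfl⟩
      rw [Finset.mem_filter]
      refine ⟨Finset.mem_univ _, ?_⟩
      push Not
      refine ⟨p, fun i => ?_⟩
      exact congrFun hp i
  have h3 : ∀ t : Fin k → Fin n, Fintype.card ι ≤ (univ.image fun p => fun i => z p (t i)).card +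
      (univ.filter fun p : ι × ι => p.1 ≠ p.2 ∧ (fun i => z p.1 (t i)) = fun i => z p.2 (t i)).card :=
    fun t => card_le_image_add_pairs _
  have h4 : ∑ t : Fin k → Fin n, Fintype.card ι ≤ _ := Finset.sum_le_sum (fun t _ => h3 t)
  rw [Finset.sum_const, Finset.card_univ, Fintype.card_fun, Fintype.card_fin, Fintype.card_fin,
    smul_eq_mul, Finset.sum_add_distrib, ← h2] at h4
  have h5 : ∑ t : Fin k → Fin n, (univ.filter fun p : ι × ι => p.1 ≠ p.2 ∧
      (fun i => z p.1 (t i)) = fun i => z p.2 (t i)).card ≤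
        Fintype.card ι * (Fintype.card ι * (n - d) ^ k) := by
    have e : ∀ t : Fin k → Fin n, (univ.filter fun p : ι × ι => p.1 ≠ p.2 ∧
      (fun i => z p.1 (t i)) = fun i => z p.2 (t i)).card =
        ∑ p : ι × ι, if p.1 ≠ p.2 ∧ (fun i => z p.1 (t i)) = (fun i => z p.2 (t i)) then 1 else 0 := by
      intro t; rw [Finset.card_filter]
    rw [Finset.sum_congr rfl (fun t _ => e t), Finset.sum_comm]
    have e2 : ∀ p : ι × ι, (∑ t : Fin k → Fin n,
        if p.1 ≠ p.2 ∧ (fun i => z p.1 (t i)) = (fun i => z p.2 (t i)) then 1 else 0) ≤ (n - d) ^ k := by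
      intro p
      rw [← Finset.card_filter]
      by_cases hp : p.1 = p.2
      · simp [hp]
      · calc _ ≤ (univ.filter fun t : Fin k → Fin n => ∀ i, z p.1 (t i) = z p.2 (t i)).card := by
              apply Finset.card_le_card
              intro t ht
              rw [Finset.mem_filter] at ht ⊢
              exact ⟨ht.1, fun i => congrFun ht.2.2 i⟩
          _ = (n - hammingDist (z p.1) (z p.2)) ^ k := card_agree _ _
          _ ≤ (n - d) ^ k := Nat.pow_le_pow_left (by have := hz _ _ hp; omega) k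
    refine (Finset.sum_le_sum (fun p _ => e2 p)).trans ?_
    rw [Finset.sum_const, Finset.card_univ, Fintype.card_prod, smul_eq_mul, mul_assoc]
  have h6 : 2 * (Fintype.card ι * (Fintype.card ι * (n - d) ^ k)) ≤ Fintype.card ι * n ^ k := by
    calc _ = Fintype.card ι * (2 * (Fintype.card ι * (n - d) ^ k)) := by ring
      _ ≤ _ := Nat.mul_le_mul le_rfl hcol
  have h7 : n ^ k * Fintype.card ι = Fintype.card ι * n ^ k := mul_comm _ _
  omega

theorem packing {d V : ℕ} (hd : 1 ≤ d)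
    (hV : ∀ z : Fin n → Bool, (univ.filter fun x => hammingDist x z < d).card ≤ V) (q : ℕ) :
    ∀ A : Finset (Fin n → Bool), q * V ≤ A.card → ∃ a : Fin q → Fin n → Bool,
      (∀ i, a i ∈ A) ∧ ∀ i j, i ≠ j → d ≤ hammingDist (a i) (a j) := by
  have hV1 : 1 ≤ V := by
    refine le_trans ?_ (hV (fun _ => false))
    rw [Nat.one_le_iff_ne_zero, Finset.card_ne_zero]
    exact ⟨fun _ => false, by simp; omega⟩
  induction q with
  | zero => intro A _; exact ⟨Fin.elim0, fun i => i.elim0, fun i => i.elim0⟩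
  | succ q ih =>
    intro A hA
    have hne : A.Nonempty := by
      rw [← Finset.card_pos]; nlinarith
    obtain ⟨a0, ha0⟩ := hne
    have hA' : q * V ≤ (A.filter fun x => ¬ hammingDist x a0 < d).card := by
      have h1 := Finset.card_filter_add_card_filter_not (s := A) (fun x => hammingDist x a0 < d)
      have h2 : (A.filter fun x => hammingDist x a0 < d).card ≤ V :=
        (Finset.card_le_card (Finset.filter_subset_filter _ (Finset.subset_univ _))).trans (hV a0)
      have h3 : (q + 1) * V = q * V + V := by ring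
      omega
    obtain ⟨a, ha, hd2⟩ := ih _ hA'
    refine ⟨Fin.cons a0 a, ?_, ?_⟩
    · intro i
      refine Fin.cases ha0 (fun j => ?_) i
      exact (Finset.mem_filter.1 (ha j)).1
    · have key : ∀ j, d ≤ hammingDist (a j) a0 := fun j => by
        have := (Finset.mem_filter.1 (ha j)).2
        omega
      intro i j
      refine Fin.cases ?_ (fun i' => ?_) i
      · refine Fin.cases ?_ (fun j' => ?_) j
        · intro h; exact absurd rfl h
        · intro _
          simp only [Fin.cons_zero, Fin.cons_succ]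
          rw [hammingDist_comm]; exact key j'
      · refine Fin.cases ?_ (fun j' => ?_) j
        · intro _
          simp only [Fin.cons_zero, Fin.cons_succ]
          exact key i'
        · intro h
          simp only [Fin.cons_succ]
          exact hd2 i' j' (fun h' => h (by rw [h']))

/-- a large rectangle -/
def Bad (q d : ℕ) (ω : Fin m → Cl n k) : Prop :=
  ∃ (X : Finset (Fin n)) (a b : Fin q → Fin n → Bool), (∀ i, a i ∈ sup Xᶜ) ∧ (∀ j, b j ∈ sup X) ∧
    (∀ i j, i ≠ j → d ≤ hammingDist (a i) (a j)) ∧ (∀ i j, i ≠ j → d ≤ hammingDist (b i) (b j)) ∧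
      ∀ l i j, ¬ viol (ω l) (jn (a i) (b j))

theorem free_of_not_bad {q d V : ℕ} (hd : 1 ≤ d)
    (hV : ∀ z : Fin n → Bool, (univ.filter fun x => hammingDist x z < d).card ≤ V)
    (ω : Fin m → Cl n k) (h : ¬ Bad q d ω) : Free (q * V) (Sat (form ω)) := by
  intro X A B hA hB hr
  by_contra hc
  push Not at hc
  obtain ⟨a, ha, had⟩ := packing hd hV q A hc.1.le
  obtain ⟨b, hb, hbd⟩ := packing hd hV q B hc.2.le
  refine h ⟨X, a, b, fun i => hA (ha i), fun j => hB (hb j), had, hbd, fun l i j => ?_⟩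
  exact (sat_form ω _).1 (hr _ (ha i) _ (hb j)) l

theorem dist_jn {X : Finset (Fin n)} {a a' b b' : Fin n → Bool} (ha : a ∈ sup Xᶜ) (ha' : a' ∈ sup Xᶜ)
    (hb : b ∈ sup X) (hb' : b' ∈ sup X) :
    hammingDist a a' ≤ hammingDist (jn a b) (jn a' b') ∧
      hammingDist b b' ≤ hammingDist (jn a b) (jn a' b') := by
  unfold hammingDist
  constructor
  · apply Finset.card_le_card
    intro i hi
    rw [Finset.mem_filter] at hi ⊢
    refine ⟨hi.1, ?_⟩
    have hX : i ∉ X := by
      intro h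
      apply hi.2
      rw [mem_sup.1 ha i (by simpa using h), mem_sup.1 ha' i (by simpa using h)]
    simpa [jn, mem_sup.1 hb i hX, mem_sup.1 hb' i hX] using hi.2
  · apply Finset.card_le_card
    intro i hi
    rw [Finset.mem_filter] at hi ⊢
    refine ⟨hi.1, ?_⟩
    have hX : i ∈ X := by
      by_contra h
      apply hi.2
      rw [mem_sup.1 hb i h, mem_sup.1 hb' i h]
    simpa [jn, mem_sup.1 ha i (by simpa using hX), mem_sup.1 ha' i (by simpa using hX)] using hi.2

open Classical in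
/-- The number of sequences of clauses with a large rectangle. -/
theorem card_bad {q d : ℕ} (hcol : 2 * ((q * q) * (n - d) ^ k) ≤ n ^ k)
    (hq : (q:ℝ) ^ 2 ≤ 2 ^ (k + 1)) :
    ((univ.filter fun ω : Fin m → Cl n k => Bad q d ω).card : ℝ) ≤
      2 ^ n * 2 ^ (n * q) * ((n:ℝ) ^ k * 2 ^ k * (1 - (q:ℝ) ^ 2 / 2 ^ (k + 1))) ^ m := by
  set R : ℝ := ((n:ℝ) ^ k * 2 ^ k * (1 - (q:ℝ) ^ 2 / 2 ^ (k + 1))) ^ m with hR
  -- one configuration
  have one : ∀ (X : Finset (Fin n)) (a b : Fin q → Fin n → Bool), (∀ i, a i ∈ sup Xᶜ) →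
      (∀ j, b j ∈ sup X) → (∀ i j, i ≠ j → d ≤ hammingDist (a i) (a j)) →
      (∀ i j, i ≠ j → d ≤ hammingDist (b i) (b j)) →
      ((univ.filter fun ω : Fin m → Cl n k => ∀ l i j, ¬ viol (ω l) (jn (a i) (b j))).card : ℝ) ≤ R := by
    intro X a b ha hb had hbd
    have h1 : (univ.filter fun ω : Fin m → Cl n k => ∀ l i j, ¬ viol (ω l) (jn (a i) (b j))) =
        Fintype.piFinset fun _ : Fin m => (univ.filter fun c : Cl n k =>
          ∀ p : Fin q × Fin q, ¬ viol c (jn (a p.1) (b p.2))) := by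
      ext ω
      simp only [Finset.mem_filter, Finset.mem_univ, true_and, Fintype.mem_piFinset, Prod.forall]
    rw [h1, Fintype.card_piFinset_const, Nat.cast_pow, hR]
    apply pow_le_pow_left₀ (Nat.cast_nonneg _)
    have hg := card_good (k := k) (d := d) (fun p : Fin q × Fin q => jn (a p.1) (b p.2)) (by
      intro p p' hne
      have hd := dist_jn (ha p.1) (ha p'.1) (hb p.2) (hb p'.2)
      by_cases h1 : p.1 = p'.1
      · have h2 : p.2 ≠ p'.2 := fun h => hne (Prod.ext h1 h)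
        exact (hbd _ _ h2).trans hd.2
      · exact (had _ _ h1).trans hd.1) (by
      rw [Fintype.card_prod, Fintype.card_fin]; exact hcol)
    rw [Fintype.card_prod, Fintype.card_fin] at hg
    have hg' : (2:ℝ) * ((univ.filter fun c : Cl n k =>
        ∀ p : Fin q × Fin q, ¬ viol c (jn (a p.1) (b p.2))).card : ℝ) + q * q * (n:ℝ) ^ k ≤
          2 * ((n:ℝ) ^ k * 2 ^ k) := by exact_mod_cast hg
    have e : (n:ℝ) ^ k * 2 ^ k * (1 - (q:ℝ) ^ 2 / 2 ^ (k + 1)) =
        (n:ℝ) ^ k * 2 ^ k - q * q * (n:ℝ) ^ k / 2 := by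
      rw [pow_succ]; field_simp; ring
    rw [e]; linarith
  -- the union bound
  let F : (Fin q → Fin n → Bool) × (Fin q → Fin n → Bool) → Finset (Fin m → Cl n k) := fun p =>
    if (∀ i j, i ≠ j → d ≤ hammingDist (p.1 i) (p.1 j)) ∧
      (∀ i j, i ≠ j → d ≤ hammingDist (p.2 i) (p.2 j)) then
      (univ.filter fun ω : Fin m → Cl n k => ∀ l i j, ¬ viol (ω l) (jn (p.1 i) (p.2 j))) else ∅
  let P : Finset (Fin n) → Finset ((Fin q → Fin n → Bool) × (Fin q → Fin n → Bool)) := fun X =>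
    (Fintype.piFinset fun _ : Fin q => sup Xᶜ) ×ˢ (Fintype.piFinset fun _ : Fin q => sup X)
  have hsub : (univ.filter fun ω : Fin m → Cl n k => Bad q d ω) ⊆
      (univ : Finset (Finset (Fin n))).biUnion fun X => (P X).biUnion F := by
    intro ω hω
    obtain ⟨X, a, b, ha, hb, had, hbd, hv⟩ := (Finset.mem_filter.1 hω).2
    refine Finset.mem_biUnion.2 ⟨X, Finset.mem_univ _, Finset.mem_biUnion.2 ⟨(a, b), ?_, ?_⟩⟩
    · rw [Finset.mem_product]
      exact ⟨Fintype.mem_piFinset.2 ha, Fintype.mem_piFinset.2 hb⟩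
    · simp only [F]
      rw [if_pos ⟨had, hbd⟩]
      exact Finset.mem_filter.2 ⟨Finset.mem_univ _, hv⟩
  have hR0 : 0 ≤ R := by
    rw [hR]
    have : 0 ≤ 1 - (q:ℝ) ^ 2 / 2 ^ (k + 1) := by
      rw [sub_nonneg, div_le_one (by positivity)]; exact hq
    positivity
  have hconf : ∀ X : Finset (Fin n), (((P X).card : ℕ) : ℝ) = 2 ^ (n * q) := by
    intro X
    simp only [P]
    rw [Finset.card_product, Fintype.card_piFinset_const, Fintype.card_piFinset_const, card_sup,
      card_sup, ← mul_pow, ← pow_add, add_comm, Finset.card_add_card_compl, Fintype.card_fin,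
      ← pow_mul]
    push_cast; rfl
  have hF : ∀ X : Finset (Fin n), ∀ p ∈ P X, ((F p).card : ℝ) ≤ R := by
    intro X p hp
    simp only [P] at hp
    rw [Finset.mem_product, Fintype.mem_piFinset, Fintype.mem_piFinset] at hp
    simp only [F]
    by_cases hc : (∀ i j, i ≠ j → d ≤ hammingDist (p.1 i) (p.1 j)) ∧
        (∀ i j, i ≠ j → d ≤ hammingDist (p.2 i) (p.2 j))
    · rw [if_pos hc]; exact one X p.1 p.2 hp.1 hp.2 hc.1 hc.2
    · rw [if_neg hc]; simpa using hR0
  have hX : ∀ X : Finset (Fin n), ((((P X).biUnion F).card : ℕ) : ℝ) ≤ 2 ^ (n * q) * R := by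
    intro X
    have h1 : ((((P X).biUnion F).card : ℕ) : ℝ) ≤ ∑ p ∈ P X, ((F p).card : ℝ) := by
      exact_mod_cast Finset.card_biUnion_le
    refine h1.trans ((Finset.sum_le_sum (fun p hp => hF X p hp)).trans ?_)
    rw [Finset.sum_const, nsmul_eq_mul, hconf]
  have h2 : ((univ.filter fun ω : Fin m → Cl n k => Bad q d ω).card : ℝ) ≤
      ∑ X : Finset (Fin n), ((((P X).biUnion F).card : ℕ) : ℝ) := by
    exact_mod_cast (Finset.card_le_card hsub).trans Finset.card_biUnion_le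
  refine h2.trans ((Finset.sum_le_sum (fun X _ => hX X)).trans ?_)
  rw [Finset.sum_const, Finset.card_univ, Fintype.card_finset, Fintype.card_fin, nsmul_eq_mul]
  push_cast
  rw [mul_assoc]

theorem quarter (k : ℕ) (hk : 1 ≤ k) : (1:ℝ) / 4 ≤ (1 - 1 / 2 ^ k) ^ (2 ^ k) := by
  induction k, hk using Nat.le_induction with
  | base => norm_num
  | succ k hk ih =>
    refine ih.trans ?_
    have e : (2:ℕ) ^ (k + 1) = 2 * 2 ^ k := by rw [pow_succ]; ring
    rw [e, pow_mul (1 - 1 / ((2:ℝ) ^ (k + 1)))]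
    apply pow_le_pow_left₀
    · rw [sub_nonneg, div_le_one (by positivity)]; exact one_le_pow₀ (by norm_num)
    · have : (1:ℝ) / 2 ^ k = 2 * (1 / 2 ^ (k + 1)) := by rw [pow_succ]; field_simp
      rw [this]
      nlinarith [sq_nonneg ((1:ℝ) / 2 ^ (k + 1))]

/-- The number of pairs of a formula and a model. -/
theorem sum_models : ∑ ω : Fin m → Cl n k, models (Sat (form ω)) =
    2 ^ n * (n ^ k * 2 ^ k - n ^ k) ^ m := by
  classical
  have e : ∀ ω : Fin m → Cl n k, models (Sat (form ω)) =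
      ∑ x : Fin n → Bool, if ∀ j, ¬ viol (ω j) x then 1 else 0 := by
    intro ω
    unfold models
    rw [Finset.card_filter]
    refine Finset.sum_congr rfl (fun x _ => ?_)
    by_cases h : Sat (form ω) x
    · rw [if_pos h, if_pos ((sat_form ω x).1 h)]
    · rw [if_neg h, if_neg (fun h' => h ((sat_form ω x).2 h'))]
  rw [Finset.sum_congr rfl (fun ω _ => e ω), Finset.sum_comm]
  have e2 : ∀ x : Fin n → Bool, (∑ ω : Fin m → Cl n k, if ∀ j, ¬ viol (ω j) x then 1 else 0) =
      (n ^ k * 2 ^ k - n ^ k) ^ m := by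
    intro x
    rw [← Finset.card_filter]
    have h1 : (univ.filter fun ω : Fin m → Cl n k => ∀ j, ¬ viol (ω j) x) =
        Fintype.piFinset fun _ : Fin m => (univ.filter fun c : Cl n k => ¬ viol c x) := by
      ext ω
      simp only [Finset.mem_filter, Finset.mem_univ, true_and, Fintype.mem_piFinset]
    rw [h1, Fintype.card_piFinset_const]
    congr 1
    have h2 := Finset.card_filter_add_card_filter_not (s := (univ : Finset (Cl n k)))
      (fun c => viol c x)
    have hT : (univ : Finset (Cl n k)).card = n ^ k * 2 ^ k := by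
      rw [Finset.card_univ]; simp
    have h3 : (univ.filter fun c : Cl n k => viol c x).card = n ^ k := by
      have : (univ.filter fun c : Cl n k => viol c x) =
          (univ : Finset (Fin k → Fin n)).image (fun t => (t, fun i => x (t i))) := by
        ext ⟨t, c⟩
        rw [Finset.mem_filter, Finset.mem_image]
        constructor
        · rintro ⟨-, h⟩; exact ⟨t, Finset.mem_univ _, Prod.ext rfl (funext h)⟩
        · rintro ⟨t', -, h⟩
          refine ⟨Finset.mem_univ _, fun i => ?_⟩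
          have h1 := congrArg Prod.fst h
          have h2 := congrFun (congrArg Prod.snd h) i
          simp only at h1 h2
          subst h1
          exact h2
      rw [this, Finset.card_image_of_injective, Finset.card_univ]
      · simp
      · intro t t' h; exact (Prod.ext_iff.1 h).1
    rw [hT, h3] at h2
    omega
  rw [Finset.sum_congr rfl (fun x _ => e2 x), Finset.sum_const, Finset.card_univ]
  simp

theorem models_le_two_pow (f : (Fin n → Bool) → Prop) : models f ≤ 2 ^ n := by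
  classical
  unfold models
  refine (Finset.card_filter_le _ _).trans ?_
  rw [Finset.card_univ]; simp

/-- There is a `k`-CNF with many models and without large rectangles. -/
theorem exists_form {n Q k d V : ℕ} (hQ : 1 ≤ Q) (hn : Q ≤ n) (hd : 1 ≤ d) (hk : 1 ≤ k)
    (hq : 64 * Q ^ 2 ≤ 2 ^ (k + 1))
    (hV : ∀ z : Fin n → Bool, (univ.filter fun x => hammingDist x z < d).card ≤ V)
    (hcol : 2 * (((8 * Q) * (8 * Q)) * (n - d) ^ k) ≤ n ^ k) :
    ∃ ω : Fin (2 ^ k * (n / Q)) → Cl n k, Free (8 * Q * V) (Sat (form ω)) ∧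
      2 ^ n ≤ 2 * 4 ^ (n / Q) * models (Sat (form ω)) := by
  classical
  set g := n / Q with hg
  have hg1 : 1 ≤ g := (Nat.one_le_div_iff (by omega)).2 hn
  set m := 2 ^ k * g with hm
  by_contra hcon
  push Not at hcon
  -- the formulas without large rectangle have few models
  have h1 : ∀ ω : Fin m → Cl n k, ¬ Bad (8 * Q) d ω → 2 * 4 ^ g * models (Sat (form ω)) ≤ 2 ^ n :=
    fun ω hω => (hcon ω (free_of_not_bad hd hV ω hω)).le
  have h2 : ∀ ω : Fin m → Cl n k, 2 * 4 ^ g * models (Sat (form ω)) ≤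
      2 ^ n + if Bad (8 * Q) d ω then 2 * 4 ^ g * 2 ^ n else 0 := by
    intro ω
    by_cases h : Bad (8 * Q) d ω
    · rw [if_pos h]
      have := Nat.mul_le_mul (le_refl (2 * 4 ^ g)) (models_le_two_pow (Sat (form ω)))
      exact this.trans (Nat.le_add_left _ _)
    · rw [if_neg h]; exact h1 ω h
  have h3 := Finset.sum_le_sum (fun (ω : Fin m → Cl n k) (_ : ω ∈ univ) => h2 ω)
  rw [← Finset.mul_sum, sum_models, Finset.sum_add_distrib, ← Finset.sum_filter, Finset.sum_const,
    Finset.sum_const, Finset.card_univ, Fintype.card_fun, Fintype.card_fin] at h3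
  have hT : Fintype.card (Cl n k) = n ^ k * 2 ^ k := by simp
  rw [hT, smul_eq_mul, smul_eq_mul] at h3
  have hbad := card_bad (m := m) hcol (by
    have : ((64 * Q ^ 2 : ℕ) : ℝ) ≤ ((2 ^ (k + 1) : ℕ) : ℝ) := by exact_mod_cast hq
    push_cast at this ⊢; nlinarith)
  set Nb := (univ.filter fun ω : Fin m → Cl n k => Bad (8 * Q) d ω).card with hNb
  set T : ℝ := (n:ℝ) ^ k * 2 ^ k with hTdef
  have hn0 : (0:ℝ) < n := by exact_mod_cast (lt_of_lt_of_le hQ hn)
  have hT0 : 0 < T := by positivity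
  have h4 : (2:ℝ) * 4 ^ g * (2 ^ n * (T - (n:ℝ) ^ k) ^ m) ≤ T ^ m * 2 ^ n + Nb * (2 * 4 ^ g * 2 ^ n) := by
    have hle : n ^ k ≤ n ^ k * 2 ^ k := Nat.le_mul_of_pos_right _ (by positivity)
    have : ((2 * 4 ^ g * (2 ^ n * (n ^ k * 2 ^ k - n ^ k) ^ m) : ℕ) : ℝ) ≤
      (((n ^ k * 2 ^ k) ^ m * 2 ^ n + Nb * (2 * 4 ^ g * 2 ^ n) : ℕ) : ℝ) := by exact_mod_cast h3
    push_cast [Nat.cast_sub hle] at this
    exact this
  have h5 : T ^ m ≤ 4 ^ g * (T - (n:ℝ) ^ k) ^ m := by
    have e : T - (n:ℝ) ^ k = T * (1 - 1 / 2 ^ k) := by rw [hTdef]; field_simp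
    rw [e, mul_pow T]
    have hq4 := quarter k hk
    have h6 : ((1:ℝ) / 4) ^ g ≤ ((1 - 1 / 2 ^ k) ^ (2 ^ k)) ^ g :=
      pow_le_pow_left₀ (by norm_num) hq4 g
    rw [← pow_mul, ← hm] at h6
    have h7 : (1:ℝ) = 4 ^ g * (1 / 4) ^ g := by rw [← mul_pow]; norm_num
    have h8 : (1:ℝ) ≤ 4 ^ g * (1 - 1 / 2 ^ k) ^ m := by
      calc (1:ℝ) = 4 ^ g * (1 / 4) ^ g := h7
        _ ≤ _ := mul_le_mul_of_nonneg_left h6 (by positivity)
    have h9 := mul_le_mul_of_nonneg_left h8 (pow_nonneg hT0.le m)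
    rw [mul_one] at h9
    refine h9.trans (le_of_eq ?_)
    rw [← mul_assoc, ← mul_assoc, mul_comm (T ^ m)]
  have h6 : T ^ m ≤ Nb * (2 * 4 ^ g) := by
    have : 2 * (2 ^ n * T ^ m) ≤ T ^ m * 2 ^ n + Nb * (2 * 4 ^ g * 2 ^ n) := by
      refine le_trans ?_ h4
      have := mul_le_mul_of_nonneg_left h5 (show (0:ℝ) ≤ 2 * 2 ^ n by positivity)
      linarith
    have h2n : (0:ℝ) < 2 ^ n := by positivity
    have : 2 ^ n * T ^ m ≤ 2 ^ n * (Nb * (2 * 4 ^ g)) := by linarith
    exact le_of_mul_le_mul_left this h2n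
  -- the bad formulas are few
  have h7 : (1 - ((8 * Q : ℕ) : ℝ) ^ 2 / 2 ^ (k + 1)) ^ m ≤ ((1:ℝ) / 2) ^ (32 * Q ^ 2 * g) := by
    have e1 : ((8 * Q : ℕ) : ℝ) ^ 2 / 2 ^ (k + 1) = 32 * Q ^ 2 / 2 ^ k := by
      push_cast; rw [pow_succ]; field_simp; ring
    rw [e1]
    have h0 : 0 ≤ 1 - 32 * (Q:ℝ) ^ 2 / 2 ^ k := by
      rw [sub_nonneg, div_le_one (by positivity)]
      have : ((64 * Q ^ 2 : ℕ) : ℝ) ≤ ((2 ^ (k + 1) : ℕ) : ℝ) := by exact_mod_cast hq
      push_cast at this
      rw [pow_succ (2:ℝ) k] at this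
      linarith
    have h8 : 1 - 32 * (Q:ℝ) ^ 2 / 2 ^ k ≤ Real.exp (-(32 * (Q:ℝ) ^ 2 / 2 ^ k)) := by
      have := Real.add_one_le_exp (-(32 * (Q:ℝ) ^ 2 / 2 ^ k)); linarith
    calc (1 - 32 * (Q:ℝ) ^ 2 / 2 ^ k) ^ m ≤ (Real.exp (-(32 * (Q:ℝ) ^ 2 / 2 ^ k))) ^ m :=
          pow_le_pow_left₀ h0 h8 m
      _ = Real.exp (-(32 * Q ^ 2 * g : ℕ)) := by
          rw [← Real.exp_nat_mul]; congr 1; rw [hm]; push_cast; field_simp
      _ = (Real.exp (-1)) ^ (32 * Q ^ 2 * g) := by
          rw [← Real.exp_nat_mul]; congr 1; ring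
      _ ≤ ((1:ℝ) / 2) ^ (32 * Q ^ 2 * g) := by
          apply pow_le_pow_left₀ (Real.exp_pos _).le
          rw [Real.exp_neg, ← one_div]
          apply one_div_le_one_div_of_le (by norm_num)
          have := Real.add_one_le_exp 1; linarith
  have h8 : (Nb:ℝ) ≤ 2 ^ n * 2 ^ (n * (8 * Q)) * (T ^ m * ((1:ℝ) / 2) ^ (32 * Q ^ 2 * g)) := by
    refine hbad.trans ?_
    rw [mul_pow]
    gcongr
  have h9 : T ^ m ≤ T ^ m * ((2 ^ n * 2 ^ (n * (8 * Q)) * (2 * 4 ^ g)) * ((1:ℝ) / 2) ^ (32 * Q ^ 2 * g)) := by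
    calc T ^ m ≤ Nb * (2 * 4 ^ g) := h6
      _ ≤ (2 ^ n * 2 ^ (n * (8 * Q)) * (T ^ m * ((1:ℝ) / 2) ^ (32 * Q ^ 2 * g))) * (2 * 4 ^ g) := by
          gcongr
      _ = _ := by ring
  have h10 : (1:ℝ) ≤ (2 ^ n * 2 ^ (n * (8 * Q)) * (2 * 4 ^ g)) * ((1:ℝ) / 2) ^ (32 * Q ^ 2 * g) := by
    have hTm : 0 < T ^ m := by positivity
    by_contra hc
    push Not at hc
    nlinarith
  have h11 : (2:ℝ) ^ (32 * Q ^ 2 * g) ≤ 2 ^ (n + n * (8 * Q) + (1 + 2 * g)) := by
    have e : ((1:ℝ) / 2) ^ (32 * Q ^ 2 * g) * 2 ^ (32 * Q ^ 2 * g) = 1 := by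
      rw [← mul_pow]; norm_num
    have e2 : (2:ℝ) ^ (n + n * (8 * Q) + (1 + 2 * g)) = 2 ^ n * 2 ^ (n * (8 * Q)) * (2 * 4 ^ g) := by
      rw [pow_add, pow_add, pow_add 2 1, pow_mul 2 2 g]; norm_num
    rw [e2]
    calc (2:ℝ) ^ (32 * Q ^ 2 * g) = 1 * 2 ^ (32 * Q ^ 2 * g) := by ring
      _ ≤ ((2 ^ n * 2 ^ (n * (8 * Q)) * (2 * 4 ^ g)) * ((1:ℝ) / 2) ^ (32 * Q ^ 2 * g)) *
          2 ^ (32 * Q ^ 2 * g) := by gcongr
      _ = (2 ^ n * 2 ^ (n * (8 * Q)) * (2 * 4 ^ g)) *
          (((1:ℝ) / 2) ^ (32 * Q ^ 2 * g) * 2 ^ (32 * Q ^ 2 * g)) := by ring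
      _ = _ := by rw [e, mul_one]
  have h12 : 32 * Q ^ 2 * g ≤ n + n * (8 * Q) + (1 + 2 * g) :=
    (pow_le_pow_iff_right₀ (by norm_num : (1:ℝ) < 2)).1 h11
  have h13 : n < (g + 1) * Q := by
    rw [hg]; exact Nat.lt_mul_of_div_lt (Nat.lt_succ_self _) (by omega)
  have h14 : n ≤ 2 * g * Q := by nlinarith
  have h15 : n * (8 * Q) ≤ 16 * (g * Q ^ 2) := by nlinarith
  have h16 : n ≤ 2 * (g * Q ^ 2) := by nlinarith [Nat.mul_le_mul (le_refl (g * Q)) hQ]
  have h17 : g ≤ g * Q ^ 2 := Nat.le_mul_of_pos_right _ (by positivity)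
  nlinarith

end Pool.Agent.W933.Seth
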